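import Pool.Agent.Lib.MP_562b47_mp.GX.Box
import Pool.Agent.Lib.MP_562b47_mp.BX.Lim

/-!
MP_562b47, every dimension, passage from boxes to the lattice: the limit.
-/

open MeasureTheory Set Filter Topology Complex Matrix
open scoped Real ENNReal NNReal InnerProductSpace

namespace Pool.Agent.Lib.MP_562b47_mp.GX

open Pool.Agent.Lib.MP_562b47_mp Pool.Agent.Lib.MP_562b47_mp.GD Pool.Agent.Lib.MP_562b47_mp.AL

variable {d : ℕ} {ι κ : Type*} [Fintype ι] [DecidableEq ι] [Fintype κ]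
variable {c E a : ℝ} {pos : ι → (Fin d → ℤ)} {A : Matrix ι ι ℝ}

theorem lint_GM (hc : 0 < c) (a : ℝ) (A : Matrix ι ι ℝ) (hpos : Function.Injective pos) (x y : ι) :
    ∫⁻ ω, ‖GM A (ub c a pos ω) x y‖ₑ ^ 2 ∂(PP (Fin d → ℤ) c)
      = ∫⁻ V, ‖GM A (fun x => ((V x : ℝ) : ℂ) - a * Complex.I) x y‖ₑ ^ 2
        ∂(Measure.pi fun _ : ι => unif c) := by
  have := unif_prob hc
  have hmp := BX.mp_coord (unif c) (g := fun x => pos x) (fun x y h => hpos h)
  have hcm := (continuous_clp c).measurable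
  have hm : Measurable fun V : ι → ℝ =>
      ‖GM A (fun x => ((clp c (V x) : ℝ) : ℂ) - a * Complex.I) x y‖ₑ ^ 2 :=
    ((measurable_GM' A (u := fun (V : ι → ℝ) x => ((clp c (V x) : ℝ) : ℂ) - a * Complex.I)
      (fun x => by fun_prop) x y).enorm).pow_const 2
  have h1 := hmp.lintegral_comp hm
  have h2 : ∫⁻ ω, ‖GM A (ub c a pos ω) x y‖ₑ ^ 2 ∂(PP (Fin d → ℤ) c)
      = ∫⁻ V, ‖GM A (fun x => ((clp c (V x) : ℝ) : ℂ) - a * Complex.I) x y‖ₑ ^ 2
        ∂(Measure.pi fun _ : ι => unif c) := h1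
  rw [h2]
  refine lintegral_congr_ae ?_
  have h3 : ∀ᵐ V ∂(Measure.pi fun _ : ι => unif c), ∀ x, V x ∈ Icc (-c) c := by
    rw [ae_all_iff]
    intro x
    exact (measurePreserving_eval (fun _ : ι => unif c) x).quasiMeasurePreserving.ae (ae_unif c)
  filter_upwards [h3] with V hV
  have h4 : (fun x => ((clp c (V x) : ℝ) : ℂ) - a * Complex.I)
      = fun x => ((V x : ℝ) : ℂ) - a * Complex.I := by
    funext x
    rw [clp_of_mem (hV x)]
  rw [h4]

/-- one box -/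
theorem one_box (hc : 0 < c) (ha : 0 < a) (hpos : Function.Injective pos)
    (hA : ∀ x y, A x y = if x = y then 2 * d - E else if adj (pos x) (pos y) then -1 else 0)
    {ξ : κ → ι → ℝ} (hξ : ∀ x y, ff ξ x y = nsq (pos x - pos y))
    (F S : Finset (Fin d → ℤ)) (B : Finset ι)
    (hyF : ∀ y ∈ B, ∀ v ∈ F, pos y + v ∈ Set.range pos)
    (hyS : ∀ y ∈ B, ∀ v ∈ S, pos y + v ∈ Set.range pos) {ε : ℝ≥0∞}
    (hF : ∑' v, (if v ∈ F then 0 else gf d c ⟨E, a⟩ v) ≤ ε) {θ : ℝ} (hθ : 0 < θ) :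
    (B.card : ℝ≥0∞) * (ENNReal.ofReal (a ^ 2) * ∑ v ∈ S, ENNReal.ofReal (nsq v) * gf d c ⟨E, a⟩ v)
      ≤ ENNReal.ofReal (1 + θ) * ENNReal.ofReal (∫ V, DU A ξ (fun x => ((V x : ℝ) : ℂ)
          - a * Complex.I) ∂(Measure.pi fun _ : ι => unif c))
        + (B.card : ℝ≥0∞) * (ENNReal.ofReal (a ^ 2) *
          (ENNReal.ofReal ((1 + 1 / θ) * (∑ v ∈ S, nsq v) * (4 * d ^ 2 / a ^ 2)) * ε)) := by
  rw [BX.lint_DU hc ha (A_symm hA) ξ]
  set T : ι → ℝ≥0∞ := fun y => ∑ x, ENNReal.ofReal (ff ξ x y) *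
        ∫⁻ V, ‖GM A (fun x => ((V x : ℝ) : ℂ) - a * Complex.I) x y‖ₑ ^ 2
        ∂(Measure.pi fun _ : ι => unif c) with hT
  have h1 : ∀ y ∈ B, ENNReal.ofReal (a ^ 2) * ∑ v ∈ S, ENNReal.ofReal (nsq v) * gf d c ⟨E, a⟩ v
      ≤ ENNReal.ofReal (1 + θ) * (ENNReal.ofReal (a ^ 2) * T y) + ENNReal.ofReal (a ^ 2) *
          (ENNReal.ofReal ((1 + 1 / θ) * (∑ v ∈ S, nsq v) * (4 * d ^ 2 / a ^ 2)) * ε) := by
    intro y hy
    have h2 := one_site hc ha hpos hA F S y (hyF y hy) (hyS y hy) hF hθ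
    have h3 : ∑ x, ENNReal.ofReal (nsq (pos x - pos y)) *
          ∫⁻ ω, ‖GM A (ub c a pos ω) x y‖ₑ ^ 2 ∂(PP (Fin d → ℤ) c) = T y := by
      refine Finset.sum_congr rfl fun x _ => ?_
      rw [lint_GM hc a A hpos x y, hξ]
    rw [h3] at h2
    calc ENNReal.ofReal (a ^ 2) * ∑ v ∈ S, ENNReal.ofReal (nsq v) * gf d c ⟨E, a⟩ v
        ≤ ENNReal.ofReal (a ^ 2) * (ENNReal.ofReal (1 + θ) * T y
          + ENNReal.ofReal ((1 + 1 / θ) * (∑ v ∈ S, nsq v) * (4 * d ^ 2 / a ^ 2)) * ε) := by gcongr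
      _ = _ := by ring
  have h4 := Finset.sum_le_sum h1
  rw [Finset.sum_const, Finset.sum_add_distrib, Finset.sum_const, nsmul_eq_mul, nsmul_eq_mul,
    ← Finset.mul_sum, ← Finset.mul_sum] at h4
  refine h4.trans ?_
  gcongr
  exact Finset.subset_univ _

/-! ### The cubic boxes -/

/-- positions of the sites of the box of side `n` -/
def bp (d n : ℕ) (x : Fin d → Fin n) : Fin d → ℤ := fun i => ((x i : ℕ) : ℤ)

theorem bp_inj (d n : ℕ) : Function.Injective (bp d n) := by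
  intro x y h
  funext i
  have := congrFun h i
  simp only [bp, Nat.cast_inj] at this
  exact Fin.ext this

/-- the matrix of the box of side `n` -/
def Ab (d : ℕ) (E : ℝ) (n : ℕ) : Matrix (Fin d → Fin n) (Fin d → Fin n) ℝ :=
  Matrix.of fun x y => if x = y then 2 * d - E else if adj (bp d n x) (bp d n y) then -1 else 0

/-- coordinates in the box of side `n` -/
def xb (d n : ℕ) (j : Fin d) (x : Fin d → Fin n) : ℝ := ((x j : ℕ) : ℝ)

theorem ff_xb (d n : ℕ) (x y : Fin d → Fin n) :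
    ff (xb d n) x y = nsq (bp d n x - bp d n y) := by
  unfold ff nsq bp xb
  refine Finset.sum_congr rfl fun i _ => ?_
  simp

theorem box_bound (hc : 0 < c) (ha : 0 < a) {K : ℝ} {n₀ : ℕ}
    (h : ∀ n ≥ n₀, ∫ V, DU (Ab d E n) (xb d n) (fun x => ((V x : ℝ) : ℂ) - a * Complex.I)
      ∂(Measure.pi fun _ : (Fin d → Fin n) => unif c) ≤ K * n ^ d)
    (F S : Finset (Fin d → ℤ)) {ρ : ℕ} (hF : ∀ v ∈ F, ∀ i, |v i| ≤ ρ)
    (hS : ∀ v ∈ S, ∀ i, |v i| ≤ ρ) {ε : ℝ≥0∞}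
    (hFε : ∑' v, (if v ∈ F then 0 else gf d c ⟨E, a⟩ v) ≤ ε) {θ : ℝ} (hθ : 0 < θ) {k : ℕ}
    (hk : n₀ ≤ k) :
    ((k ^ d : ℕ) : ℝ≥0∞) * (ENNReal.ofReal (a ^ 2) *
        ∑ v ∈ S, ENNReal.ofReal (nsq v) * gf d c ⟨E, a⟩ v)
      ≤ ENNReal.ofReal (1 + θ) * ENNReal.ofReal (K * ((k + 2 * ρ : ℕ) : ℝ) ^ d)
        + ((k ^ d : ℕ) : ℝ≥0∞) * (ENNReal.ofReal (a ^ 2) *
          (ENNReal.ofReal ((1 + 1 / θ) * (∑ v ∈ S, nsq v) * (4 * d ^ 2 / a ^ 2)) * ε)) := by
  classical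
  set n := k + 2 * ρ with hn
  have hlt : ∀ i : Fin k, (i : ℕ) + ρ < n := fun i => by have := i.2; omega
  set e : (Fin d → Fin k) → (Fin d → Fin n) := fun p i => ⟨p i + ρ, hlt (p i)⟩ with he
  have hinj : Function.Injective e := by
    intro p q h
    funext i
    have := congrFun h i
    simp only [he, Fin.mk.injEq] at this
    exact Fin.ext (by omega)
  have hrange : ∀ (p : Fin d → Fin k) (v : Fin d → ℤ), (∀ i, |v i| ≤ ρ) →
      bp d n (e p) + v ∈ Set.range (bp d n) := by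
    intro p v h1
    have g1 : ∀ i, (((p i : ℕ) + ρ : ℤ) + v i).toNat < n := by
      intro i
      have h2 := abs_le.mp (h1 i)
      have hp := (p i).2
      omega
    refine ⟨fun i => ⟨_, g1 i⟩, ?_⟩
    funext i
    have h2 := abs_le.mp (h1 i)
    have hp := (p i).2
    simp only [bp, he, Pi.add_apply]
    push_cast
    omega
  have h1 := one_box (ι := Fin d → Fin n) (pos := bp d n) (A := Ab d E n) (ξ := xb d n) hc ha
    (bp_inj d n) (fun x y => rfl) (ff_xb d n) F S (Finset.univ.map ⟨e, hinj⟩)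
    (fun y hy v hv => by
      obtain ⟨p, _, rfl⟩ := Finset.mem_map.mp hy
      exact hrange p v (hF v hv))
    (fun y hy v hv => by
      obtain ⟨p, _, rfl⟩ := Finset.mem_map.mp hy
      exact hrange p v (hS v hv)) hFε hθ
  have h2 : (Finset.univ.map ⟨e, hinj⟩ : Finset (Fin d → Fin n)).card = k ^ d := by
    rw [Finset.card_map, Finset.card_univ]
    simp
  rw [h2] at h1
  refine h1.trans ?_
  gcongr
  exact h n (by omega)

/-- **From boxes to the lattice.** -/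
theorem lim_box (hc : 0 < c) (ha : 0 < a) {K : ℝ} (hK : 0 ≤ K) {n₀ : ℕ}
    (h : ∀ n ≥ n₀, ∫ V, DU (Ab d E n) (xb d n) (fun x => ((V x : ℝ) : ℂ) - a * Complex.I)
      ∂(Measure.pi fun _ : (Fin d → Fin n) => unif c) ≤ K * n ^ d) :
    QL.DE d c ⟨E, a⟩ ≤ ENNReal.ofReal (K / a ^ 2) := by
  classical
  have hz : 0 < (⟨E, a⟩ : ℂ).im := ha
  -- the functional as a sum
  have hDE : QL.DE d c ⟨E, a⟩ = ∑' v, ENNReal.ofReal (nsq v) * gf d c ⟨E, a⟩ v := by
    unfold QL.DE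
    rw [lintegral_tsum]
    · refine tsum_congr fun v => ?_
      rw [lintegral_const_mul' _ _ ENNReal.ofReal_ne_top]
      congr 1
      unfold gf Gp
      refine lintegral_congr fun ω => ?_
      rw [(model (d := d) hc).Gr_symm ω hz]
    · intro x
      refine AEMeasurable.const_mul ?_ _
      exact ((((model (d := d) hc).continuous_Gr continuous_id continuous_const (fun _ => hz)
        0 x).enorm.measurable).pow_const 2).aemeasurable
  rw [hDE, ENNReal.tsum_eq_iSup_sum]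
  refine iSup_le fun S => ?_
  set D : ℝ≥0∞ := ∑ v ∈ S, ENNReal.ofReal (nsq v) * gf d c ⟨E, a⟩ v with hD
  have hDtop : D ≠ ⊤ := by
    rw [hD]
    exact (ENNReal.sum_lt_top.mpr fun v _ => ENNReal.mul_lt_top ENNReal.ofReal_lt_top
      (lt_top_iff_ne_top.mpr (gf_ne_top hc hz v))).ne
  -- the main inequality
  have hmain : ∀ θ : ℝ, 0 < θ → ∀ ε : ℝ, 0 < ε →
      a ^ 2 * D.toReal ≤ (1 + θ) * K
        + a ^ 2 * (((1 + 1 / θ) * (∑ v ∈ S, nsq v) * (4 * d ^ 2 / a ^ 2)) * ε) := by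
    intro θ hθ ε hε
    set Cθ : ℝ := (1 + 1 / θ) * (∑ v ∈ S, nsq v) * (4 * d ^ 2 / a ^ 2) with hCθ
    have hCθ0 : 0 ≤ Cθ := mul_nonneg (mul_nonneg (by positivity)
      (Finset.sum_nonneg fun v _ => nsq_nonneg v)) (by positivity)
    obtain ⟨F, hF⟩ := gf_tail (d := d) (c := c) (z := ⟨E, a⟩) hc hz (ε := ENNReal.ofReal ε)
      (by simpa using hε)
    obtain ⟨ρ, hρ⟩ : ∃ ρ : ℕ, ∀ v ∈ F ∪ S, ∀ i, |v i| ≤ ρ := by
      refine ⟨∑ v ∈ F ∪ S, ∑ i, (v i).natAbs, fun v hv i => ?_⟩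
      have h1 := Finset.single_le_sum (f := fun v : Fin d → ℤ => ∑ i, (v i).natAbs)
        (fun _ _ => Nat.zero_le _) hv
      have h2 := Finset.single_le_sum (f := fun i => (v i).natAbs)
        (fun _ _ => Nat.zero_le _) (Finset.mem_univ i)
      rw [Int.abs_eq_natAbs]
      exact_mod_cast h2.trans h1
    have hk : ∀ k : ℕ, n₀ ≤ k → 1 ≤ k →
        a ^ 2 * D.toReal ≤ (1 + θ) * K * (1 + 2 * ρ / (k : ℝ)) ^ d + a ^ 2 * (Cθ * ε) := by
      intro k hk0 hk1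
      have h1 := box_bound hc ha h F S (ρ := ρ) (fun v hv => hρ v (Finset.mem_union_left _ hv))
        (fun v hv => hρ v (Finset.mem_union_right _ hv)) hF hθ hk0
      rw [← hD, ← hCθ] at h1
      have hkr : (0:ℝ) < k := by exact_mod_cast hk1
      have h2 : ((k ^ d : ℕ) : ℝ≥0∞) * (ENNReal.ofReal (a ^ 2) * D)
          = ENNReal.ofReal ((k:ℝ) ^ d * (a ^ 2 * D.toReal)) := by
        rw [ENNReal.ofReal_mul (by positivity), ENNReal.ofReal_mul (by positivity),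
          ENNReal.ofReal_toReal hDtop]
        congr 1
        rw [← ENNReal.ofReal_natCast]
        push_cast
        rfl
      have h3 : ((k ^ d : ℕ) : ℝ≥0∞) * (ENNReal.ofReal (a ^ 2) * (ENNReal.ofReal Cθ * ENNReal.ofReal ε))
          = ENNReal.ofReal ((k:ℝ) ^ d * (a ^ 2 * (Cθ * ε))) := by
        rw [ENNReal.ofReal_mul (p := (k:ℝ) ^ d) (by positivity),
          ENNReal.ofReal_mul (p := a ^ 2) (by positivity), ENNReal.ofReal_mul (p := Cθ) hCθ0]
        congr 1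
        rw [← ENNReal.ofReal_natCast]
        push_cast
        rfl
      have hKn : 0 ≤ K * ((k + 2 * ρ : ℕ) : ℝ) ^ d := by positivity
      rw [h2, h3, ← ENNReal.ofReal_mul (by positivity), ← ENNReal.ofReal_add (by positivity)
        (by positivity)] at h1
      rw [ENNReal.ofReal_le_ofReal_iff (by positivity)] at h1
      have h4 : ((k + 2 * ρ : ℕ) : ℝ) = k * (1 + 2 * ρ / (k : ℝ)) := by
        push_cast
        field_simp
      rw [h4, mul_pow] at h1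
      have h5 : (k:ℝ) ^ d * (a ^ 2 * D.toReal)
          ≤ (k:ℝ) ^ d * ((1 + θ) * K * (1 + 2 * ρ / (k : ℝ)) ^ d + a ^ 2 * (Cθ * ε)) := by
        refine h1.trans (le_of_eq ?_)
        ring
      exact le_of_mul_le_mul_left h5 (by positivity)
    have hlim : Tendsto (fun k : ℕ => (1 + θ) * K * (1 + 2 * ρ / (k : ℝ)) ^ d + a ^ 2 * (Cθ * ε)) atTop
        (𝓝 ((1 + θ) * K * (1 + 0) ^ d + a ^ 2 * (Cθ * ε))) := by
      refine Tendsto.add_const _ (Tendsto.const_mul _ (Tendsto.pow (Tendsto.const_add _ ?_) d))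
      exact tendsto_const_div_atTop_nhds_zero_nat _
    have h6 := ge_of_tendsto hlim (b := a ^ 2 * D.toReal) (by
      filter_upwards [eventually_ge_atTop (max n₀ 1)] with k hk'
      exact hk k ((le_max_left _ _).trans hk') ((le_max_right _ _).trans hk'))
    simpa using h6
  -- first ε → 0, then θ → 0
  have h7 : ∀ θ : ℝ, 0 < θ → a ^ 2 * D.toReal ≤ (1 + θ) * K := by
    intro θ hθ
    refine le_of_forall_pos_le_add fun δ hδ => ?_
    set Cθ : ℝ := (1 + 1 / θ) * (∑ v ∈ S, nsq v) * (4 * d ^ 2 / a ^ 2) with hCθ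
    have hCθ0 : 0 ≤ Cθ := mul_nonneg (mul_nonneg (by positivity)
      (Finset.sum_nonneg fun v _ => nsq_nonneg v)) (by positivity)
    have h8 := hmain θ hθ (δ / (a ^ 2 * Cθ + 1)) (by positivity)
    refine h8.trans ?_
    gcongr
    rw [← hCθ]
    have h9 : a ^ 2 * (Cθ * (δ / (a ^ 2 * Cθ + 1))) = δ * ((a ^ 2 * Cθ) / (a ^ 2 * Cθ + 1)) := by
      ring
    rw [h9]
    have h10 : (a ^ 2 * Cθ) / (a ^ 2 * Cθ + 1) ≤ 1 := by
      rw [div_le_one (by positivity)]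
      linarith
    nlinarith
  have h11 : a ^ 2 * D.toReal ≤ K := by
    refine le_of_forall_pos_le_add fun δ hδ => ?_
    have h12 := h7 (δ / (K + 1)) (by positivity)
    refine h12.trans ?_
    have h13 : (1 + δ / (K + 1)) * K = K + δ * (K / (K + 1)) := by ring
    rw [h13]
    have h14 : K / (K + 1) ≤ 1 := by
      rw [div_le_one (by positivity)]
      linarith
    nlinarith
  rw [← ENNReal.ofReal_toReal hDtop]
  refine ENNReal.ofReal_le_ofReal ?_
  rw [le_div_iff₀ (by positivity)]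
  linarith

end Pool.Agent.Lib.MP_562b47_mp.GX
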