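import Pool.Agent.Lib.MP_562b47_mp.GX.Plane
import Pool.Agent.Lib.MP_562b47_mp.AL.Reg

/-!
MP_562b47, every dimension, passage from boxes to the lattice: one site, one box.
-/

open MeasureTheory Set Filter Topology Complex Matrix
open scoped Real ENNReal NNReal InnerProductSpace

namespace Pool.Agent.Lib.MP_562b47_mp.GX

open Pool.Agent.Lib.MP_562b47_mp Pool.Agent.Lib.MP_562b47_mp.GD Pool.Agent.Lib.MP_562b47_mp.AL

variable {d : ℕ}

/-- squared length -/
def nsq (v : Fin d → ℤ) : ℝ := ∑ i, (v i : ℝ) ^ 2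

theorem nsq_nonneg (v : Fin d → ℤ) : 0 ≤ nsq v := Finset.sum_nonneg fun i _ => by positivity

variable {ι : Type*} [Fintype ι] [DecidableEq ι]

/-- the potential of the sites `pos x` with absorption `a` -/
noncomputable def ub (c a : ℝ) (pos : ι → (Fin d → ℤ)) (ω : (Fin d → ℤ) → ℝ) (x : ι) : ℂ :=
  (clp c (ω (pos x)) : ℂ) - a * Complex.I

omit [Fintype ι] [DecidableEq ι] in
theorem measurable_ub (c a : ℝ) (pos : ι → (Fin d → ℤ)) (x : ι) :
    Measurable fun ω => ub c a pos ω x := by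
  unfold ub
  have h := (continuous_clp c).measurable
  fun_prop

theorem enorm_sq_eq (w : ℂ) : ‖w‖ₑ ^ 2 = ENNReal.ofReal (‖w‖ ^ 2) := by
  rw [ENNReal.ofReal_pow (norm_nonneg _), ofReal_norm]

theorem enorm_sq_le (u w : ℂ) {θ : ℝ} (hθ : 0 < θ) :
    ‖u‖ₑ ^ 2 ≤ ENNReal.ofReal (1 + θ) * ‖w‖ₑ ^ 2 + ENNReal.ofReal (1 + 1 / θ) * ‖u - w‖ₑ ^ 2 := by
  rw [enorm_sq_eq, enorm_sq_eq, enorm_sq_eq, ← ENNReal.ofReal_mul (by positivity),
    ← ENNReal.ofReal_mul (by positivity), ← ENNReal.ofReal_add (by positivity) (by positivity)]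
  refine ENNReal.ofReal_le_ofReal ?_
  have h1 : ‖u‖ ≤ ‖w‖ + ‖u - w‖ := by
    have := norm_add_le w (u - w)
    rwa [add_sub_cancel] at this
  have h2 : ‖u‖ ^ 2 ≤ (‖w‖ + ‖u - w‖) ^ 2 := pow_le_pow_left₀ (norm_nonneg _) h1 2
  have h3 : 0 ≤ (θ * ‖w‖ - ‖u - w‖) ^ 2 / θ := by positivity
  have h4 : (θ * ‖w‖ - ‖u - w‖) ^ 2 / θ
      = θ * ‖w‖ ^ 2 + 1 / θ * ‖u - w‖ ^ 2 - 2 * ‖w‖ * ‖u - w‖ := by
    field_simp
    ring
  nlinarith

variable {c E a : ℝ} {pos : ι → (Fin d → ℤ)} {A : Matrix ι ι ℝ}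

/-- mean square distance between the two Green functions -/
theorem mean_diff (hc : 0 < c) (ha : 0 < a) (hpos : Function.Injective pos)
    (hA : ∀ x y, A x y = if x = y then 2 * d - E else if adj (pos x) (pos y) then -1 else 0)
    (F : Finset (Fin d → ℤ)) (y : ι) (hy : ∀ v ∈ F, pos y + v ∈ Set.range pos) :
    ∑ x, ∫⁻ ω, ‖Gp c ⟨E, a⟩ ω (pos x) (pos y) - GM A (ub c a pos ω) x y‖ₑ ^ 2
        ∂(PP (Fin d → ℤ) c)
      ≤ ENNReal.ofReal (4 * d ^ 2 / a ^ 2) * ∑' v, (if v ∈ F then 0 else gf d c ⟨E, a⟩ v) := by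
  classical
  have hz : 0 < (⟨E, a⟩ : ℂ).im := ha
  have hm : ∀ x, Measurable fun ω => ‖Gp c ⟨E, a⟩ ω (pos x) (pos y) - GM A (ub c a pos ω) x y‖ₑ ^ 2 :=
    fun x => ((((measurable_Gp hc hz (pos x) (pos y)).measurable).sub
      (measurable_GM' A (measurable_ub c a pos) x y)).enorm).pow_const 2
  rw [← lintegral_finsetSum _ fun x _ => hm x]
  have h1 : ∀ ω, ∑ x, ‖Gp c ⟨E, a⟩ ω (pos x) (pos y) - GM A (ub c a pos ω) x y‖ₑ ^ 2
      ≤ ENNReal.ofReal (4 * d ^ 2 / a ^ 2) *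
        ∑' v, (if v ∈ Set.range pos then 0 else ‖Gp c ⟨E, a⟩ ω v (pos y)‖ₑ ^ 2) := by
    intro ω
    have h2 := det_compare hpos ha hA (fun x => clp c (ω (pos x)))
      (ψ := fun v => Gp c ⟨E, a⟩ ω v (pos y)) (Gp_summable hc ω (pos y)) y (fun x => by
        have h3 := Gp_eq (c := c) hc hz ω (pos y) (pos x)
        have h4 : (if pos x = pos y then (1:ℂ) else 0) = if x = y then 1 else 0 := by
          by_cases h : x = y
          · rw [if_pos h, if_pos (by rw [h])]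
          · rw [if_neg h, if_neg (fun h' => h (hpos h'))]
        rw [← h4, ← h3]
        have h5 : (⟨E, a⟩ : ℂ) = (E : ℂ) + a * Complex.I := Complex.mk_eq_add_mul_I E a
        rw [h5]
        push_cast
        ring)
    have h6 : ∑ x, ‖Gp c ⟨E, a⟩ ω (pos x) (pos y) - GM A (ub c a pos ω) x y‖ₑ ^ 2
        = ENNReal.ofReal (∑ x, ‖Gp c ⟨E, a⟩ ω (pos x) (pos y) - GM A (ub c a pos ω) x y‖ ^ 2) := by
      rw [ENNReal.ofReal_sum_of_nonneg fun x _ => by positivity]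
      exact Finset.sum_congr rfl fun x _ => enorm_sq_eq _
    have h7 : ∑' v, (if v ∈ Set.range pos then 0 else ‖Gp c ⟨E, a⟩ ω v (pos y)‖ₑ ^ 2)
        = ENNReal.ofReal (∑' v, (if v ∈ Set.range pos then 0 else ‖Gp c ⟨E, a⟩ ω v (pos y)‖ ^ 2)) := by
      rw [ENNReal.ofReal_tsum_of_nonneg]
      · refine tsum_congr fun v => ?_
        split_ifs
        · simp
        · exact enorm_sq_eq _
      · intro v
        split_ifs <;> positivity
      · refine Summable.of_nonneg_of_le (fun v => ?_) (fun v => ?_)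
          (Gp_summable (z := ⟨E, a⟩) hc ω (pos y))
        · split_ifs <;> positivity
        · split_ifs
          · positivity
          · exact le_rfl
    rw [h6, h7, ← ENNReal.ofReal_mul (by positivity)]
    refine ENNReal.ofReal_le_ofReal ?_
    convert h2 using 5
    rfl
  refine (lintegral_mono h1).trans ?_
  rw [lintegral_const_mul' _ _ ENNReal.ofReal_ne_top]
  gcongr
  rw [lintegral_tsum fun v => by
    split_ifs
    · exact aemeasurable_const
    · exact (measurable_Gp_sq hc hz v (pos y)).aemeasurable]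
  have h8 : ∑' v, (if v ∈ F then 0 else gf d c ⟨E, a⟩ v)
      = ∑' v, (if v - pos y ∈ F then 0 else gf d c ⟨E, a⟩ (v - pos y)) :=
    ((Equiv.subRight (pos y)).tsum_eq (fun v => if v ∈ F then 0 else gf d c ⟨E, a⟩ v)).symm
  rw [h8]
  refine ENNReal.tsum_le_tsum fun v => ?_
  by_cases hv : v ∈ Set.range pos
  · simp [hv]
  · simp only [if_neg hv]
    rw [gf_eq hc hz v (pos y), if_neg]
    intro h9
    apply hv
    have := hy _ h9
    rwa [add_sub_cancel] at this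

/-- one site deep inside the box -/
theorem one_site (hc : 0 < c) (ha : 0 < a) (hpos : Function.Injective pos)
    (hA : ∀ x y, A x y = if x = y then 2 * d - E else if adj (pos x) (pos y) then -1 else 0)
    (F S : Finset (Fin d → ℤ)) (y : ι) (hyF : ∀ v ∈ F, pos y + v ∈ Set.range pos)
    (hyS : ∀ v ∈ S, pos y + v ∈ Set.range pos) {ε : ℝ≥0∞}
    (hF : ∑' v, (if v ∈ F then 0 else gf d c ⟨E, a⟩ v) ≤ ε) {θ : ℝ} (hθ : 0 < θ) :
    ∑ v ∈ S, ENNReal.ofReal (nsq v) * gf d c ⟨E, a⟩ v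
      ≤ ENNReal.ofReal (1 + θ) * ∑ x, ENNReal.ofReal (nsq (pos x - pos y)) *
          ∫⁻ ω, ‖GM A (ub c a pos ω) x y‖ₑ ^ 2 ∂(PP (Fin d → ℤ) c)
        + ENNReal.ofReal ((1 + 1 / θ) * (∑ v ∈ S, nsq v) * (4 * d ^ 2 / a ^ 2)) * ε := by
  classical
  have hz : 0 < (⟨E, a⟩ : ℂ).im := ha
  set I : ι → ℝ≥0∞ := fun x => ∫⁻ ω, ‖GM A (ub c a pos ω) x y‖ₑ ^ 2 ∂(PP (Fin d → ℤ) c) with hI
  set J : ι → ℝ≥0∞ := fun x => ∫⁻ ω, ‖Gp c ⟨E, a⟩ ω (pos x) (pos y) - GM A (ub c a pos ω) x y‖ₑ ^ 2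
    ∂(PP (Fin d → ℤ) c) with hJ
  have hJs : ∑ x, J x ≤ ENNReal.ofReal (4 * d ^ 2 / a ^ 2) * ε := by
    refine (mean_diff hc ha hpos hA F y hyF).trans ?_
    gcongr
  have hex : ∀ v ∈ S, ∃ x, pos x = pos y + v := fun v hv => hyS v hv
  set x0 : (Fin d → ℤ) → ι := fun v => if h : ∃ x, pos x = pos y + v then h.choose else y with hx0
  have hx0s : ∀ v ∈ S, pos (x0 v) = pos y + v := by
    intro v hv
    simp only [hx0]
    rw [dif_pos (hex v hv)]
    exact (hex v hv).choose_spec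
  have hterm : ∀ v ∈ S, ENNReal.ofReal (nsq v) * gf d c ⟨E, a⟩ v
      ≤ ENNReal.ofReal (1 + θ) * (ENNReal.ofReal (nsq (pos (x0 v) - pos y)) * I (x0 v))
        + ENNReal.ofReal ((1 + 1 / θ) * nsq v) * (ENNReal.ofReal (4 * d ^ 2 / a ^ 2) * ε) := by
    intro v hv
    have h1 : gf d c ⟨E, a⟩ v
        ≤ ENNReal.ofReal (1 + θ) * I (x0 v) + ENNReal.ofReal (1 + 1 / θ) * J (x0 v) := by
      have h2 : gf d c ⟨E, a⟩ v = ∫⁻ ω, ‖Gp c ⟨E, a⟩ ω (pos (x0 v)) (pos y)‖ₑ ^ 2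
          ∂(PP (Fin d → ℤ) c) := by
        rw [gf_eq hc hz, hx0s v hv, add_sub_cancel_left]
      rw [h2, hI, hJ]
      simp only
      rw [← lintegral_const_mul' _ _ ENNReal.ofReal_ne_top,
        ← lintegral_const_mul' _ _ ENNReal.ofReal_ne_top, ← lintegral_add_left]
      · exact lintegral_mono fun ω => enorm_sq_le _ _ hθ
      · exact (((measurable_GM' A (measurable_ub c a pos) _ _).enorm).pow_const 2).const_mul _
    have h3 : J (x0 v) ≤ ENNReal.ofReal (4 * d ^ 2 / a ^ 2) * ε :=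
      (Finset.single_le_sum (f := J) (fun _ _ => zero_le) (Finset.mem_univ _)).trans hJs
    have hn := nsq_nonneg v
    calc ENNReal.ofReal (nsq v) * gf d c ⟨E, a⟩ v
        ≤ ENNReal.ofReal (nsq v) * (ENNReal.ofReal (1 + θ) * I (x0 v)
          + ENNReal.ofReal (1 + 1 / θ) * (ENNReal.ofReal (4 * d ^ 2 / a ^ 2) * ε)) := by
          gcongr
          exact h1.trans (by gcongr)
      _ = _ := by
          rw [hx0s v hv, add_sub_cancel_left, ENNReal.ofReal_mul (p := 1 + 1 / θ) (by positivity)]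
          ring
  refine (Finset.sum_le_sum hterm).trans ?_
  rw [Finset.sum_add_distrib, ← Finset.mul_sum, ← Finset.sum_mul]
  refine add_le_add ?_ (le_of_eq ?_)
  · gcongr
    have h4 : Set.InjOn x0 S := by
      intro v hv w hw h
      have h5 := hx0s v hv
      have h6 := hx0s w hw
      rw [h, h6] at h5
      exact (add_left_cancel h5).symm
    have h7 : ∑ v ∈ S, ENNReal.ofReal (nsq (pos (x0 v) - pos y)) * I (x0 v)
        = ∑ x ∈ S.image x0, ENNReal.ofReal (nsq (pos x - pos y)) * I x :=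
      (Finset.sum_image (f := fun x => ENNReal.ofReal (nsq (pos x - pos y)) * I x) h4).symm
    rw [h7]
    exact Finset.sum_le_sum_of_subset (Finset.subset_univ _)
  · rw [← ENNReal.ofReal_sum_of_nonneg fun v _ => mul_nonneg (by positivity) (nsq_nonneg v),
      ← Finset.mul_sum, ← mul_assoc, ← ENNReal.ofReal_mul]
    exact mul_nonneg (by positivity) (Finset.sum_nonneg fun v _ => nsq_nonneg v)

end Pool.Agent.Lib.MP_562b47_mp.GX
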