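import Pool.Agent.Lib.MP_562b47_mp.BX.Det
import Pool.Agent.Lib.MP_562b47_mp.GD.Mul

/-!
MP_562b47, every dimension, passage from boxes to the lattice: the deterministic comparison of the
Green function of the lattice with the Green function of a finite set of sites. (`BX` is the case
`d = 2`.)
-/

open Finset Matrix

namespace Pool.Agent.Lib.MP_562b47_mp.GX

open Pool.Agent.Lib.MP_562b47_mp.AL Pool.Agent.Lib.MP_562b47_mp.GD

variable {d : ℕ} {ι : Type*} [Fintype ι] [DecidableEq ι]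

omit [DecidableEq ι] in
theorem sum_adj {pos : ι → (Fin d → ℤ)} (hpos : Function.Injective pos) (ψ : (Fin d → ℤ) → ℂ)
    (p : Fin d → ℤ) [DecidablePred fun v => v ∈ Set.range pos] :
    ∑ x', (if adj p (pos x') then ψ (pos x') else 0)
      = nbs (fun v => if v ∈ Set.range pos then ψ v else 0) p := by
  have h := GD.sum_adj (R := ℂ) (univ.map ⟨pos, hpos⟩)
    (fun v => if v ∈ Set.range pos then ψ v else 0) (fun v hv => by
      rw [if_neg]
      rintro ⟨x, rfl⟩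
      exact hv (mem_map.mpr ⟨x, mem_univ _, rfl⟩)) p 1
  rw [one_mul] at h
  rw [← h, sum_map]
  refine sum_congr rfl fun x _ => ?_
  simp only [Function.Embedding.coeFn_mk]
  rw [if_pos (Set.mem_range_self x)]
  split_ifs <;> simp

theorem sum_inj_le {f : (Fin d → ℤ) → ℝ} (hf : Summable f) (h0 : ∀ v, 0 ≤ f v)
    {g : ι → (Fin d → ℤ)} (hg : Function.Injective g) : ∑ x, f (g x) ≤ ∑' v, f v := by
  have h1 : ∑ x, f (g x) = ∑ v ∈ univ.map ⟨g, hg⟩, f v := by
    rw [sum_map]; rfl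
  rw [h1]
  exact hf.sum_le_tsum _ fun v _ => h0 v

theorem nbs_sq_le (φ : (Fin d → ℤ) → ℂ) (p : Fin d → ℤ) :
    ‖nbs φ p‖ ^ 2 ≤ 2 * d * ∑ i, (‖φ (sh p i 1)‖ ^ 2 + ‖φ (sh p i (-1))‖ ^ 2) := by
  have h1 : ‖nbs φ p‖ ≤ ∑ i, ‖φ (sh p i 1) + φ (sh p i (-1))‖ := by
    unfold nbs
    exact norm_sum_le _ _
  have h2 : ‖nbs φ p‖ ^ 2 ≤ (∑ i, ‖φ (sh p i 1) + φ (sh p i (-1))‖) ^ 2 :=
    pow_le_pow_left₀ (norm_nonneg _) h1 2
  have h3 : (∑ i : Fin d, ‖φ (sh p i 1) + φ (sh p i (-1))‖) ^ 2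
      ≤ d * ∑ i, ‖φ (sh p i 1) + φ (sh p i (-1))‖ ^ 2 := by
    have := sq_sum_le_card_mul_sum_sq (s := (univ : Finset (Fin d)))
      (f := fun i => ‖φ (sh p i 1) + φ (sh p i (-1))‖)
    simpa using this
  refine h2.trans (h3.trans ?_)
  have h4 : ∑ i, ‖φ (sh p i 1) + φ (sh p i (-1))‖ ^ 2
      ≤ ∑ i, 2 * (‖φ (sh p i 1)‖ ^ 2 + ‖φ (sh p i (-1))‖ ^ 2) := by
    refine sum_le_sum fun i _ => ?_
    have h5 : ‖φ (sh p i 1) + φ (sh p i (-1))‖ ^ 2 ≤ (‖φ (sh p i 1)‖ + ‖φ (sh p i (-1))‖) ^ 2 :=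
      pow_le_pow_left₀ (norm_nonneg _) (norm_add_le _ _) 2
    nlinarith [sq_nonneg (‖φ (sh p i 1)‖ - ‖φ (sh p i (-1))‖)]
  calc (d : ℝ) * ∑ i, ‖φ (sh p i 1) + φ (sh p i (-1))‖ ^ 2
      ≤ d * ∑ i, 2 * (‖φ (sh p i 1)‖ ^ 2 + ‖φ (sh p i (-1))‖ ^ 2) := by gcongr
    _ = _ := by rw [← mul_sum]; ring

theorem sum_nbs_le {pos : ι → (Fin d → ℤ)} (hpos : Function.Injective pos)
    {φ : (Fin d → ℤ) → ℂ} (hφ : Summable fun v => ‖φ v‖ ^ 2) :
    ∑ x, ‖nbs φ (pos x)‖ ^ 2 ≤ 4 * d ^ 2 * ∑' v, ‖φ v‖ ^ 2 := by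
  have h0 : ∀ v, 0 ≤ ‖φ v‖ ^ 2 := fun v => by positivity
  have h1 : ∀ (i : Fin d) (t : ℤ), ∑ x, ‖φ (sh (pos x) i t)‖ ^ 2 ≤ ∑' v, ‖φ v‖ ^ 2 :=
    fun i t => sum_inj_le (g := fun x => sh (pos x) i t) hφ h0
      (fun x y h => hpos (sh_inj _ _ i t h))
  calc ∑ x, ‖nbs φ (pos x)‖ ^ 2
      ≤ ∑ x, 2 * d * ∑ i, (‖φ (sh (pos x) i 1)‖ ^ 2 + ‖φ (sh (pos x) i (-1))‖ ^ 2) :=
        sum_le_sum fun x _ => nbs_sq_le φ (pos x)
    _ = 2 * d * ∑ i, (∑ x, ‖φ (sh (pos x) i 1)‖ ^ 2 + ∑ x, ‖φ (sh (pos x) i (-1))‖ ^ 2) := by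
        rw [← mul_sum, sum_comm]
        congr 1
        exact sum_congr rfl fun i _ => sum_add_distrib
    _ ≤ 2 * d * ∑ _i : Fin d, (∑' v, ‖φ v‖ ^ 2 + ∑' v, ‖φ v‖ ^ 2) := by
        gcongr with i hi
        · exact h1 i 1
        · exact h1 i (-1)
    _ = 4 * d ^ 2 * ∑' v, ‖φ v‖ ^ 2 := by
        rw [sum_const, card_univ, Fintype.card_fin, nsmul_eq_mul]
        ring

theorem adj_self (p : Fin d → ℤ) : ¬ adj p p := by
  rintro ⟨i, h | h⟩
  · have := congrFun h i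
    rw [sh_same] at this
    omega
  · have := congrFun h i
    rw [sh_same] at this
    omega

theorem adj_comm (p q : Fin d → ℤ) : adj p q ↔ adj q p := ⟨adj_symm, adj_symm⟩

omit [Fintype ι] in
theorem A_symm {pos : ι → (Fin d → ℤ)} {A : Matrix ι ι ℝ} {E : ℝ}
    (hA : ∀ x y, A x y = if x = y then 2 * d - E else if adj (pos x) (pos y) then -1 else 0) :
    A.IsSymm := by
  ext x y
  rw [transpose_apply, hA, hA]
  by_cases h : x = y
  · subst h; rfl
  · rw [if_neg h, if_neg (Ne.symm h)]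
    by_cases h' : adj (pos x) (pos y)
    · rw [if_pos h', if_pos ((adj_comm _ _).mp h')]
    · rw [if_neg h', if_neg (fun h2 => h' ((adj_comm _ _).mpr h2))]

open Classical in
/-- **Comparison.** `ψ` = a column of the Green function of the lattice. -/
theorem det_compare {pos : ι → (Fin d → ℤ)} (hpos : Function.Injective pos)
    {A : Matrix ι ι ℝ} {E a : ℝ} (ha : 0 < a)
    (hA : ∀ x y, A x y = if x = y then 2 * d - E else if adj (pos x) (pos y) then -1 else 0)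
    (V : ι → ℝ) {ψ : (Fin d → ℤ) → ℂ} (hψ : Summable fun v => ‖ψ v‖ ^ 2) (y : ι)
    (heq : ∀ x : ι, ((2 * d + V x - E : ℝ) - a * Complex.I : ℂ) * ψ (pos x) - nbs ψ (pos x)
      = if x = y then 1 else 0) :
    ∑ x, ‖ψ (pos x) - GM A (fun x => (V x : ℂ) - a * Complex.I) x y‖ ^ 2
      ≤ 4 * d ^ 2 / a ^ 2 * ∑' v, (if v ∈ Set.range pos then 0 else ‖ψ v‖ ^ 2) := by
  set u : ι → ℂ := fun x => (V x : ℂ) - a * Complex.I with hu
  have hs : A.IsSymm := A_symm hA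
  have him : ∀ x, (u x).im = -a := fun x => by simp [hu]
  have hl : Loss u := fun x => by rw [him x]; linarith
  set φ : (Fin d → ℤ) → ℂ := fun v => if v ∈ Set.range pos then 0 else ψ v with hφ
  have hφs : Summable fun v => ‖φ v‖ ^ 2 := by
    refine Summable.of_nonneg_of_le (fun v => by positivity) (fun v => ?_) hψ
    simp only [hφ]
    split_ifs
    · simp
    · exact le_rfl
  have hrow : ∀ x, ∑ x', HM A u x x' * ψ (pos x') = (if x = y then 1 else 0) + nbs φ (pos x) := by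
    intro x
    have h1 : ∀ x', HM A u x x' * ψ (pos x')
        = (if x = x' then ((2 * d - E : ℝ) + u x) * ψ (pos x) else 0)
        - (if adj (pos x) (pos x') then ψ (pos x') else 0) := by
      intro x'
      rw [HM_apply, hA]
      by_cases h : x = x'
      · subst h
        rw [if_pos rfl, if_pos rfl, if_pos rfl, if_neg (adj_self _)]
        ring
      · rw [if_neg h, if_neg h, if_neg h]
        split_ifs <;> push_cast <;> ring
    simp only [h1]
    rw [sum_sub_distrib, Finset.sum_ite_eq, if_pos (mem_univ _), sum_adj hpos ψ (pos x)]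
    have h2 := heq x
    have h3 : nbs ψ (pos x) = nbs (fun v => if v ∈ Set.range pos then ψ v else 0) (pos x)
        + nbs φ (pos x) := by
      have h4 : ψ = fun v => (if v ∈ Set.range pos then ψ v else 0) + φ v := by
        funext v
        simp only [hφ]
        split_ifs <;> simp
      conv_lhs => rw [h4]
      unfold nbs
      rw [← sum_add_distrib]
      exact sum_congr rfl fun i _ => by ring
    rw [h3] at h2
    have h5 : ((2 * d - E : ℝ) + u x : ℂ) = ((2 * d + V x - E : ℝ) - a * Complex.I : ℂ) := by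
      simp only [hu]; push_cast; ring
    rw [h5]
    linear_combination h2
  have hG : ∀ x, ∑ x', HM A u x x' * GM A u x' y = if x = y then 1 else 0 := by
    intro x
    have h := congrFun (congrFun (HM_mul_GM hs hl) x) y
    rw [mul_apply, one_apply] at h
    exact h
  have hw := BX.norm_le_of_eq hs ha him (fun x => ψ (pos x) - GM A u x y)
    (fun x => nbs φ (pos x)) (fun x => by
      simp only [mul_sub, sum_sub_distrib]
      rw [hrow, hG]
      ring)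
  refine hw.trans ?_
  have h6 := sum_nbs_le hpos hφs
  have h7 : ∑' v, ‖φ v‖ ^ 2 = ∑' v, (if v ∈ Set.range pos then 0 else ‖ψ v‖ ^ 2) := by
    refine tsum_congr fun v => ?_
    simp only [hφ]
    split_ifs <;> simp
  rw [h7] at h6
  calc (∑ x, ‖nbs φ (pos x)‖ ^ 2) / a ^ 2
      ≤ (4 * d ^ 2 * ∑' v, (if v ∈ Set.range pos then 0 else ‖ψ v‖ ^ 2)) / a ^ 2 := by gcongr
    _ = _ := by ring

end Pool.Agent.Lib.MP_562b47_mp.GX
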