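import Pool.Agent.Lib.MP_562b47_mp.GX.Det
import Pool.Agent.Lib.MP_562b47_mp.QL.Fin

/-!
MP_562b47, every dimension, passage from boxes to the lattice: the Green function of the lattice.
-/

open MeasureTheory Set Filter Topology Complex
open scoped Real ENNReal NNReal InnerProductSpace

namespace Pool.Agent.Lib.MP_562b47_mp.GX

open Pool.Agent.Lib.MP_562b47_mp Pool.Agent.Lib.MP_562b47_mp.GD

variable {d : ℕ}

theorem sh_eq_add (x : Fin d → ℤ) (i : Fin d) (t : ℤ) : sh x i t = x + Pi.single i t := by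
  funext j
  by_cases h : j = i
  · subst h
    rw [sh_same, Pi.add_apply, Pi.single_eq_same]
  · rw [sh_ne x h, Pi.add_apply, Pi.single_eq_of_ne h, add_zero]

theorem sh_neg_eq_sub (x : Fin d → ℤ) (i : Fin d) : sh x i (-1) = x - Pi.single i 1 := by
  rw [sh_eq_add, sub_eq_add_neg, ← Pi.single_neg]

/-- Green function of the lattice in coordinates -/
noncomputable def Gp (c : ℝ) (z : ℂ) (ω : (Fin d → ℤ) → ℝ) (v y : Fin d → ℤ) : ℂ :=
  Gr (ee d) (HH d c) ω z v y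

variable {c : ℝ} {z : ℂ}

theorem Gp_coe (ω : (Fin d → ℤ) → ℝ) (v y : Fin d → ℤ) :
    Gp c z ω v y = Rv (HH d c ω) z (ee d y) v := by
  unfold Gp Gr
  rw [ee_eq, inner_eb]

theorem Gp_hasSum (hc : 0 < c) (ω : (Fin d → ℤ) → ℝ) (y : Fin d → ℤ) :
    HasSum (fun v => ‖Gp c z ω v y‖ ^ 2) (‖Rv (HH d c ω) z (ee d y)‖ ^ 2) :=
  (model (d := d) hc).parseval_norm (Rv (HH d c ω) z (ee d y))

theorem Gp_summable (hc : 0 < c) (ω : (Fin d → ℤ) → ℝ) (y : Fin d → ℤ) :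
    Summable fun v => ‖Gp c z ω v y‖ ^ 2 := (Gp_hasSum hc ω y).summable

theorem Gp_eq (hc : 0 < c) (hz : 0 < z.im) (ω : (Fin d → ℤ) → ℝ) (y v : Fin d → ℤ) :
    (((2 * d + clp c (ω v) : ℝ) : ℂ) - z) * Gp c z ω v y - nbs (fun v => Gp c z ω v y) v
      = if v = y then 1 else 0 := by
  have h := H_Rv_apply ((model (d := d) hc).sa ω) hz.ne' (ee d y)
  have h1 := congrArg (fun u : Hilb d => u v) h
  simp only [lp.coeFn_add, Pi.add_apply, lp.coeFn_smul, Pi.smul_apply, smul_eq_mul] at h1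
  rw [HH_apply, ee_eq, eb_apply] at h1
  simp only [← ee_eq, ← Gp_coe] at h1
  have h2 : ∑ i : Fin d, (Gp c z ω (v + Pi.single i 1) y - Gp c z ω v y
      + (Gp c z ω (v - Pi.single i 1) y - Gp c z ω v y))
      = nbs (fun v => Gp c z ω v y) v - 2 * d * Gp c z ω v y := by
    unfold nbs
    have h3 : ∀ i : Fin d, Gp c z ω (v + Pi.single i 1) y - Gp c z ω v y
      + (Gp c z ω (v - Pi.single i 1) y - Gp c z ω v y)
      = (Gp c z ω (sh v i 1) y + Gp c z ω (sh v i (-1)) y) - 2 * Gp c z ω v y := by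
      intro i
      rw [sh_eq_add, sh_neg_eq_sub]
      ring
    rw [Finset.sum_congr rfl fun i _ => h3 i, Finset.sum_sub_distrib, Finset.sum_const,
      Finset.card_univ, Fintype.card_fin, nsmul_eq_mul]
    ring
  rw [h2] at h1
  push_cast
  linear_combination h1

theorem measurable_Gp (hc : 0 < c) (hz : 0 < z.im) (v y : Fin d → ℤ) :
    Continuous fun ω => Gp c z ω v y :=
  (model (d := d) hc).continuous_Gr continuous_id continuous_const (fun _ => hz) _ _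

theorem measurable_Gp_sq (hc : 0 < c) (hz : 0 < z.im) (v y : Fin d → ℤ) :
    Measurable fun ω => ‖Gp c z ω v y‖ₑ ^ 2 :=
  ((measurable_Gp hc hz v y).enorm.measurable).pow_const 2

theorem Gp_shift (hc : 0 < c) (hz : 0 < z.im) (v y : Fin d → ℤ) :
    ∫⁻ ω, ‖Gp c z ω (v + y) y‖ₑ ^ 2 ∂(PP (Fin d → ℤ) c)
      = ∫⁻ ω, ‖Gp c z ω v 0‖ₑ ^ 2 ∂(PP (Fin d → ℤ) c) := by
  have := unif_prob hc
  have hmp := measurePreserving_shift (Λ := Fin d → ℤ) (unif c) y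
  have h3 : ∀ ω, ‖Gp c z ω (v + y) y‖ₑ ^ 2 = ‖Gp c z (fun j => ω (j + y)) v 0‖ₑ ^ 2 := by
    intro ω
    unfold Gp
    rw [shiftCov hc y ω z v 0 hz, zero_add]
  rw [lintegral_congr h3]
  exact hmp.lintegral_comp (measurable_Gp_sq hc hz v 0)

/-- `E |G(0, v)|²` -/
noncomputable def gf (d : ℕ) (c : ℝ) (z : ℂ) (v : Fin d → ℤ) : ℝ≥0∞ :=
  ∫⁻ ω, ‖Gp c z ω v 0‖ₑ ^ 2 ∂(PP (Fin d → ℤ) c)

theorem gf_eq (hc : 0 < c) (hz : 0 < z.im) (v y : Fin d → ℤ) :
    ∫⁻ ω, ‖Gp c z ω v y‖ₑ ^ 2 ∂(PP (Fin d → ℤ) c) = gf d c z (v - y) := by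
  have h := Gp_shift hc hz (v - y) y
  rw [sub_add_cancel] at h
  exact h

theorem gf_sum (hc : 0 < c) (hz : 0 < z.im) :
    ∑' v, gf d c z v ≤ ENNReal.ofReal (1 / z.im ^ 2) := by
  have := PP_prob (Fin d → ℤ) hc
  unfold gf
  rw [← lintegral_tsum fun v => (measurable_Gp_sq hc hz v 0).aemeasurable]
  have h1 : ∀ ω, ∑' v, ‖Gp (d := d) c z ω v 0‖ₑ ^ 2 ≤ ENNReal.ofReal (1 / z.im ^ 2) := by
    intro ω
    have h2 := Gp_hasSum (d := d) (z := z) hc ω 0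
    have h3 : ∑' v, ‖Gp (d := d) c z ω v 0‖ₑ ^ 2
        = ENNReal.ofReal (‖Rv (HH d c ω) z (ee d 0)‖ ^ 2) := by
      rw [← h2.tsum_eq, ENNReal.ofReal_tsum_of_nonneg (fun y => by positivity) h2.summable]
      refine tsum_congr fun v => ?_
      rw [ENNReal.ofReal_pow (norm_nonneg _), ofReal_norm]
    rw [h3]
    refine ENNReal.ofReal_le_ofReal ?_
    have h4 := norm_Rv_le ((model (d := d) hc).sa ω) hz.ne' (ee d 0)
    rw [(model (d := d) hc).ortho.1, abs_of_pos hz] at h4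
    rw [le_div_iff₀ (by positivity), ← mul_pow]
    refine pow_le_one₀ (by positivity) ?_
    linarith
  calc ∫⁻ ω, ∑' v, ‖Gp (d := d) c z ω v 0‖ₑ ^ 2 ∂(PP (Fin d → ℤ) c)
      ≤ ∫⁻ _ω, ENNReal.ofReal (1 / z.im ^ 2) ∂(PP (Fin d → ℤ) c) := lintegral_mono h1
    _ = _ := by simp

theorem gf_ne_top (hc : 0 < c) (hz : 0 < z.im) (v : Fin d → ℤ) : gf d c z v ≠ ⊤ :=
  ne_top_of_le_ne_top ENNReal.ofReal_ne_top ((ENNReal.le_tsum v).trans (gf_sum hc hz))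

/-- small tail -/
theorem gf_tail (hc : 0 < c) (hz : 0 < z.im) {ε : ℝ≥0∞} (hε : 0 < ε) :
    ∃ F : Finset (Fin d → ℤ), ∑' v, (if v ∈ F then 0 else gf d c z v) ≤ ε := by
  have h1 := ENNReal.tendsto_tsum_compl_atTop_zero
    (ne_top_of_le_ne_top ENNReal.ofReal_ne_top (gf_sum (d := d) (c := c) (z := z) hc hz))
  obtain ⟨F, hF⟩ := ((ENNReal.tendsto_nhds_zero.mp h1) ε hε).exists
  refine ⟨F, le_trans (le_of_eq ?_) hF⟩
  refine Eq.trans ?_ (tsum_subtype ({v | v ∉ F} : Set (Fin d → ℤ)) (gf d c z)).symm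
  refine tsum_congr fun v => ?_
  by_cases h : v ∈ F
  · rw [if_pos h, indicator_of_notMem]
    simpa using h
  · rw [if_neg h, indicator_of_mem]
    simpa using h

end Pool.Agent.Lib.MP_562b47_mp.GX
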